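import Mathlib

set_option autoImplicit false

/-!
# Project FC: half-integer powers
-/

namespace Pool.Agent.V5helper44.FC

open Set Filter Topology

theorem half_int {σ₀ : ℝ} {q Ψ : ℝ → ℝ} (hq : AnalyticAt ℝ q σ₀) (hΨ : AnalyticAt ℝ Ψ σ₀)
    (h : ∀ᶠ σ in 𝓝[>] σ₀, q σ = √(σ - σ₀) * Ψ σ) : ∀ᶠ σ in 𝓝 σ₀, q σ = 0 := by
  have h1 : AnalyticAt ℝ (fun σ => q σ ^ 2) σ₀ := hq.pow 2
  have hid : AnalyticAt ℝ (fun σ : ℝ => σ - σ₀) σ₀ := by fun_prop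
  have h2 : AnalyticAt ℝ (fun σ => (σ - σ₀) * Ψ σ ^ 2) σ₀ := hid.mul (hΨ.pow 2)
  have h3 : ∀ᶠ σ in 𝓝[>] σ₀, q σ ^ 2 = (σ - σ₀) * Ψ σ ^ 2 := by
    filter_upwards [h, self_mem_nhdsWithin] with σ h4 h5
    rw [h4, mul_pow, Real.sq_sqrt (sub_pos.2 h5).le]
  have h4 : ∃ᶠ σ in 𝓝[≠] σ₀, q σ ^ 2 = (σ - σ₀) * Ψ σ ^ 2 :=
    h3.frequently.filter_mono (nhdsWithin_mono _ fun x hx => ne_of_gt hx)
  have h5 : ∀ᶠ σ in 𝓝 σ₀, q σ ^ 2 = (σ - σ₀) * Ψ σ ^ 2 :=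
    (h1.frequently_eq_iff_eventually_eq h2).1 h4
  by_contra hne
  have hne1 : analyticOrderAt q σ₀ ≠ ⊤ := fun h6 => hne (analyticOrderAt_eq_top.1 h6)
  have e1 : analyticOrderAt (fun σ => q σ ^ 2) σ₀ = 2 • analyticOrderAt q σ₀ := by
    exact analyticOrderAt_pow hq 2
  have e2 : analyticOrderAt (fun σ => (σ - σ₀) * Ψ σ ^ 2) σ₀ =
      1 + 2 • analyticOrderAt Ψ σ₀ := by
    have := analyticOrderAt_mul hid (hΨ.pow 2)
    rw [analyticOrderAt_pow hΨ 2] at this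
    rw [show (fun σ => (σ - σ₀) * Ψ σ ^ 2) = (fun σ : ℝ => σ - σ₀) * Ψ ^ 2 from rfl, this]
    congr 1
    rw [show (1 : ℕ∞) = ((1 : ℕ) : ℕ∞) from rfl, hid.analyticOrderAt_eq_natCast]
    exact ⟨fun _ => 1, analyticAt_const, one_ne_zero, by simp⟩
  have e3 : analyticOrderAt (fun σ => q σ ^ 2) σ₀ =
      analyticOrderAt (fun σ => (σ - σ₀) * Ψ σ ^ 2) σ₀ := analyticOrderAt_congr h5
  rw [e1, e2] at e3
  obtain ⟨m, hm⟩ := ENat.ne_top_iff_exists.1 hne1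
  rw [← hm] at e3
  rcases eq_or_ne (analyticOrderAt Ψ σ₀) ⊤ with h7 | h7
  · rw [h7] at e3
    simp at e3
    exact absurd e3 (by exact_mod_cast ENat.natCast_ne_top _)
  · obtain ⟨k, hk⟩ := ENat.ne_top_iff_exists.1 h7
    rw [← hk] at e3
    have : 2 * m = 1 + 2 * k := by
      have e4 : ((2 • m : ℕ) : ℕ∞) = ((1 + 2 • k : ℕ) : ℕ∞) := by push_cast; exact e3
      have := ENat.natCast_inj.1 e4
      simpa using this
    omega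

end Pool.Agent.V5helper44.FC
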